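import Pool.Agent.W458.MF.EStm
import Pool.Agent.W928.MF.Real2

/-!
# Isometries with one nonsplit factor (MFE-EREAL2)
-/

set_option autoImplicit false
set_option linter.unusedSectionVars false
set_option linter.unusedSimpArgs false

open Polynomial
open scoped commutatorElement

namespace Pool.Agent.W382.MF.EReal2

open Pool.Agent.W458.MF Pool.Agent.W521.Frob Pool.Agent.W928.MF

section gen

variable {F : Type*} [Field F] {A R N : Type*} [Fintype A] [Fintype R] [Fintype N]
  [DecidableEq A] [DecidableEq R] [DecidableEq N]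

/-- block sum of two matrices -/
def psi (E : A ⊕ R ≃ N) (m : Matrix A A F) (d : Matrix R R F) : Matrix N N F :=
  (Matrix.fromBlocks m 0 0 d).submatrix E.symm E.symm

lemma psi_mul (E : A ⊕ R ≃ N) (m m' : Matrix A A F) (d d' : Matrix R R F) :
    psi E m d * psi E m' d' = psi E (m * m') (d * d') := by
  rw [psi, psi, psi, Matrix.submatrix_mul_equiv, Matrix.fromBlocks_multiply]
  simp

lemma psi_one (E : A ⊕ R ≃ N) : psi E (1 : Matrix A A F) (1 : Matrix R R F) = 1 := by
  rw [psi, Matrix.fromBlocks_one, Matrix.submatrix_one_equiv]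

lemma psi_transpose (E : A ⊕ R ≃ N) (m : Matrix A A F) (d : Matrix R R F) :
    (psi E m d).transpose = psi E m.transpose d.transpose := by
  rw [psi, psi, Matrix.transpose_submatrix, Matrix.fromBlocks_transpose, Matrix.transpose_zero,
    Matrix.transpose_zero]

lemma psi_smul (E : A ⊕ R ≃ N) (r : F) (m : Matrix A A F) (d : Matrix R R F) :
    r • psi E m d = psi E (r • m) (r • d) := by
  have h1 : Matrix.fromBlocks (r • m) 0 0 (r • d) = r • Matrix.fromBlocks m 0 0 d := by
    rw [Matrix.fromBlocks_smul, smul_zero, smul_zero]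
  rw [psi, psi, h1]
  rfl

lemma psi_charpoly (E : A ⊕ R ≃ N) (m : Matrix A A F) (d : Matrix R R F) :
    (psi E m d).charpoly = m.charpoly * d.charpoly := by
  have h1 : psi E m d = Matrix.reindex E E (Matrix.fromBlocks m 0 0 d) := rfl
  rw [h1, Matrix.charpoly_reindex, Matrix.charpoly_fromBlocks_zero₁₂]

lemma psi_of (E : A ⊕ R ≃ N) (M : Matrix N N F) (m : Matrix A A F) (d : Matrix R R F)
    (h : M.submatrix E E = Matrix.fromBlocks m 0 0 d) : M = psi E m d := by
  rw [psi, ← h, Matrix.submatrix_submatrix, Equiv.self_comp_symm, Matrix.submatrix_id_id]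

end gen

section three

variable {F : Type*} [Field F]

/-- the form on the 3-dimensional block -/
def M3 (F : Type*) [Field F] : Matrix (Fin 3) (Fin 3) F := !![0, 1, 0; 1, 0, 0; 0, 0, 2]

def U (y : F) : Matrix (Fin 3) (Fin 3) F := !![1, 0, 0; -y ^ 2, 1, y; -2 * y, 0, 1]

def V (y : F) : Matrix (Fin 3) (Fin 3) F := !![1, -y ^ 2, -y; 0, 1, 0; 0, 2 * y, 1]

def Hm (u v : F) : Matrix (Fin 3) (Fin 3) F := !![u, 0, 0; 0, v, 0; 0, 0, 1]

lemma U_mul (x y : F) : U x * U y = U (x + y) := by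
  ext i j
  fin_cases i <;> fin_cases j <;> simp [U, Matrix.mul_apply, Fin.sum_univ_three] <;> ring

lemma V_mul (x y : F) : V x * V y = V (x + y) := by
  ext i j
  fin_cases i <;> fin_cases j <;> simp [V, Matrix.mul_apply, Fin.sum_univ_three] <;> ring

lemma U_zero : U (0 : F) = 1 := by
  ext i j
  fin_cases i <;> fin_cases j <;> simp [U]

lemma V_zero : V (0 : F) = 1 := by
  ext i j
  fin_cases i <;> fin_cases j <;> simp [V]

lemma Hm_mul (u v : F) (h : u * v = 1) : Hm u v * Hm v u = 1 := by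
  ext i j
  fin_cases i <;> fin_cases j <;>
    simp [Hm, Matrix.mul_apply, Fin.sum_univ_three, h, mul_comm v u]

lemma U_form (y : F) : U y * M3 F * (U y).transpose = M3 F := by
  ext i j
  fin_cases i <;> fin_cases j <;>
    simp [U, M3, Matrix.mul_apply, Fin.sum_univ_three, Matrix.transpose_apply] <;> ring

lemma V_form (y : F) : V y * M3 F * (V y).transpose = M3 F := by
  ext i j
  fin_cases i <;> fin_cases j <;>
    simp [V, M3, Matrix.mul_apply, Fin.sum_univ_three, Matrix.transpose_apply] <;> ring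

lemma Hm_form (u v : F) (h : u * v = 1) : Hm u v * M3 F * (Hm u v).transpose = M3 F := by
  ext i j
  fin_cases i <;> fin_cases j <;>
    simp [Hm, M3, Matrix.mul_apply, Fin.sum_univ_three, Matrix.transpose_apply, h, mul_comm v u]

lemma U_comm (h y : F) (hh : 2 * h = 1) : Hm h 2 * U y * Hm 2 h * U (-y) = U y := by
  have e : Hm h 2 * U y * Hm 2 h = U (2 * y) := by
    ext i j
    fin_cases i <;> fin_cases j <;>
      simp [U, Hm, Matrix.mul_apply, Fin.sum_univ_three]
    all_goals first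
      | ring1
      | linear_combination hh
  rw [e, U_mul]
  congr 1
  ring

lemma V_comm (h y : F) (hh : 2 * h = 1) : Hm 2 h * V y * Hm h 2 * V (-y) = V y := by
  have e : Hm 2 h * V y * Hm h 2 = V (2 * y) := by
    ext i j
    fin_cases i <;> fin_cases j <;>
      simp [V, Hm, Matrix.mul_apply, Fin.sum_univ_three]
    all_goals first
      | ring1
      | linear_combination hh
  rw [e, V_mul]
  congr 1
  ring

lemma det3 {R : Type*} [CommRing R] (a b c d e f g h i : R) :
    Matrix.det !![a, b, c; d, e, f; g, h, i] =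
      a * (e * i - f * h) - b * (d * i - f * g) + c * (d * h - e * g) := by
  rw [Matrix.det_fin_three]
  simp
  ring

lemma charpoly3 (r d v x t : F) (hd : d * v = 1)
    (hx : r * (d * (1 + x) + 1) ^ 2 = d * (t + 2 * r)) :
    (r • (Hm d v * (V 1 * U x))).charpoly =
      (X - C r) * (X ^ 2 - C t * X + C (r ^ 2)) := by
  have e1 : r • (Hm d v * (V 1 * U x)) =
      !![r * (d * (1 + x) ^ 2), r * -d, r * -(d * (1 + x));
        r * -(x ^ 2 * v), r * v, r * (x * v);
        r * -(2 * x * (1 + x)), r * 2, r * (2 * x + 1)] := by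
    ext i j
    fin_cases i <;> fin_cases j <;>
      simp [Hm, V, U, Matrix.mul_apply, Fin.sum_univ_three, -mul_eq_mul_left_iff,
        -mul_eq_mul_right_iff]
    all_goals ring1
  have h4 : (C 2 : F[X]) = 2 := map_ofNat C 2
  have e2 : Matrix.charmatrix (!![r * (d * (1 + x) ^ 2), r * -d, r * -(d * (1 + x));
        r * -(x ^ 2 * v), r * v, r * (x * v);
        r * -(2 * x * (1 + x)), r * 2, r * (2 * x + 1)] : Matrix (Fin 3) (Fin 3) F) =
      !![X - C r * (C d * (1 + C x) ^ 2), C r * C d, C r * (C d * (1 + C x));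
        C r * (C x ^ 2 * C v), X - C r * C v, -(C r * (C x * C v));
        C r * (2 * C x * (1 + C x)), -(C r * 2), X - C r * (2 * C x + 1)] := by
    ext i j
    fin_cases i <;> fin_cases j <;>
      simp [h4, -mul_eq_mul_left_iff, -mul_eq_mul_right_iff]
  rw [e1, Matrix.charpoly, e2, det3]
  have h0 : r * (d * (1 + x) ^ 2 + v + 2 * x + 1) = t + r := by
    have h1 : r * (d * (1 + x) ^ 2 + v + 2 * x + 1) - (t + r) = 0 := by
      linear_combination v * hx - (r * d * (1 + x) ^ 2 + 2 * r * (1 + x) - t - 2 * r) * hd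
    linear_combination h1
  have h1 : C d * C v = 1 := by rw [← C_mul, hd, C_1]
  have h2 : C r * (C d * (1 + C x) ^ 2 + C v + 2 * C x + 1) = C t + C r := by
    have := congrArg C h0
    simpa only [C_mul, C_add, C_pow, C_1, h4] using this
  rw [C_pow]
  linear_combination (-X ^ 2 + X * C r) * h2 + (X * C r ^ 2 * (1 + 2 * C x) - C r ^ 3) * h1

end three

section comm

variable {l : ℕ} [Fact l.Prime] {R N : Type} [Fintype R] [Fintype N] [DecidableEq R]
  [DecidableEq N]

/-- the values of the elements of the commutator subgroup -/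
def InC (M P : Matrix N N (ZMod l)) : Prop :=
  ∃ ω ∈ ⁅isomOf M, isomOf M⁆, ω.val = P

lemma inC_mul {M P Q : Matrix N N (ZMod l)} (hP : InC M P) (hQ : InC M Q) : InC M (P * Q) := by
  obtain ⟨ω, h1, rfl⟩ := hP
  obtain ⟨ω', h2, rfl⟩ := hQ
  exact ⟨ω * ω', mul_mem h1 h2, rfl⟩

/-- a block isometry as an element of the group -/
def blockU (E : Fin 3 ⊕ R ≃ N) (P Q : Matrix (Fin 3) (Fin 3) (ZMod l)) (h : P * Q = 1) :
    (Matrix N N (ZMod l))ˣ :=
  ⟨psi E P 1, psi E Q 1, by rw [psi_mul, h, mul_one, psi_one],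
    by rw [psi_mul, mul_eq_one_comm.1 h, mul_one, psi_one]⟩

lemma blockU_mem (E : Fin 3 ⊕ R ≃ N) (P Q : Matrix (Fin 3) (Fin 3) (ZMod l)) (h : P * Q = 1)
    (M : Matrix N N (ZMod l)) (Mr : Matrix R R (ZMod l)) (hM : M = psi E (M3 (ZMod l)) Mr)
    (hP : P * M3 (ZMod l) * P.transpose = M3 (ZMod l)) : blockU E P Q h ∈ isomOf M := by
  change psi E P 1 * M * (psi E P 1).transpose = M
  rw [hM, psi_transpose, psi_mul, psi_mul, hP, one_mul, Matrix.transpose_one, mul_one]

lemma inC_comm (E : Fin 3 ⊕ R ≃ N) (P P' Q Q' : Matrix (Fin 3) (Fin 3) (ZMod l))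
    (h : P * P' = 1) (h' : Q * Q' = 1) (M : Matrix N N (ZMod l)) (Mr : Matrix R R (ZMod l))
    (hM : M = psi E (M3 (ZMod l)) Mr)
    (hP : P * M3 (ZMod l) * P.transpose = M3 (ZMod l))
    (hQ : Q * M3 (ZMod l) * Q.transpose = M3 (ZMod l)) :
    InC M (psi E (P * Q * P' * Q') 1) := by
  refine ⟨⁅blockU E P P' h, blockU E Q Q' h'⁆, Subgroup.commutator_mem_commutator
    (blockU_mem E P P' h M Mr hM hP) (blockU_mem E Q Q' h' M Mr hM hQ), ?_⟩
  rw [commutatorElement_def, Units.val_mul, Units.val_mul, Units.val_mul]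
  change psi E P 1 * psi E Q 1 * psi E P' 1 * psi E Q' 1 = _
  rw [psi_mul, psi_mul, psi_mul, mul_one, mul_one, mul_one]

lemma inC_U (hl : l ≠ 2) (E : Fin 3 ⊕ R ≃ N) (M : Matrix N N (ZMod l)) (Mr : Matrix R R (ZMod l))
    (hM : M = psi E (M3 (ZMod l)) Mr) (y : ZMod l) : InC M (psi E (U y) 1) := by
  have h2 : (2 : ZMod l) ≠ 0 := by
    intro h
    have h3 : Fact (2 < l) := ⟨lt_of_le_of_ne (Fact.out : l.Prime).two_le (Ne.symm hl)⟩
    exact ZMod.neg_one_ne_one (n := l) (by linear_combination -h)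
  have hh : (2 : ZMod l) * (2 : ZMod l)⁻¹ = 1 := mul_inv_cancel₀ h2
  have hh' : (2 : ZMod l)⁻¹ * (2 : ZMod l) = 1 := inv_mul_cancel₀ h2
  rw [← U_comm _ y hh]
  refine inC_comm E _ _ _ _ (Hm_mul _ _ hh') ?_ M Mr hM (Hm_form _ _ hh') (U_form y)
  rw [U_mul, add_neg_cancel, U_zero]

lemma inC_V (hl : l ≠ 2) (E : Fin 3 ⊕ R ≃ N) (M : Matrix N N (ZMod l)) (Mr : Matrix R R (ZMod l))
    (hM : M = psi E (M3 (ZMod l)) Mr) (y : ZMod l) : InC M (psi E (V y) 1) := by
  have h2 : (2 : ZMod l) ≠ 0 := by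
    intro h
    have h3 : Fact (2 < l) := ⟨lt_of_le_of_ne (Fact.out : l.Prime).two_le (Ne.symm hl)⟩
    exact ZMod.neg_one_ne_one (n := l) (by linear_combination -h)
  have hh : (2 : ZMod l) * (2 : ZMod l)⁻¹ = 1 := mul_inv_cancel₀ h2
  have hh' : (2 : ZMod l)⁻¹ * (2 : ZMod l) = 1 := inv_mul_cancel₀ h2
  rw [← V_comm _ y hh]
  refine inC_comm E _ _ _ _ (Hm_mul _ _ hh) ?_ M Mr hM (Hm_form _ _ hh) (V_form y)
  rw [V_mul, add_neg_cancel, V_zero]

end comm

section embed

variable {g l e : ℕ}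

/-- the embedding of the isometries of the split space -/
def emb (g l e : ℕ) : (Matrix (Fin g ⊕ Fin g) (Fin g ⊕ Fin g) (ZMod l))ˣ →*
    (Matrix ((Fin g ⊕ Fin g) ⊕ Fin e) ((Fin g ⊕ Fin g) ⊕ Fin e) (ZMod l))ˣ where
  toFun P :=
    { val := Matrix.fromBlocks P.val 0 0 1
      inv := Matrix.fromBlocks (P⁻¹).val 0 0 1
      val_inv := by
        rw [Matrix.fromBlocks_multiply]
        simp
      inv_val := by
        rw [Matrix.fromBlocks_multiply]
        simp }
  map_one' := by
    apply Units.ext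
    simp
  map_mul' P Q := by
    apply Units.ext
    change Matrix.fromBlocks (P * Q).val 0 0 1 =
      Matrix.fromBlocks P.val 0 0 1 * Matrix.fromBlocks Q.val 0 0 1
    rw [Matrix.fromBlocks_multiply]
    simp

lemma emb_mem (δ : (ZMod l)ˣ) {P : (Matrix (Fin g ⊕ Fin g) (Fin g ⊕ Fin g) (ZMod l))ˣ}
    (hP : P ∈ isometries g l) : emb g l e P ∈ isomOf (extForm g l e δ) := by
  change Matrix.fromBlocks P.val 0 0 1 * extForm g l e δ *
    (Matrix.fromBlocks P.val 0 0 1).transpose = extForm g l e δ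
  have h1 : P.val * splitForm g l * P.val.transpose = splitForm g l := hP
  rw [extForm, Matrix.fromBlocks_transpose, Matrix.fromBlocks_multiply,
    Matrix.fromBlocks_multiply]
  simp [h1]

lemma emb_inC (δ : (ZMod l)ˣ) {P : Matrix (Fin g ⊕ Fin g) (Fin g ⊕ Fin g) (ZMod l)}
    (hP : InO g l P) : ∃ ω ∈ ⁅isomOf (extForm g l e δ), isomOf (extForm g l e δ)⁆,
      ω.val = Matrix.fromBlocks P 0 0 1 := by
  obtain ⟨ω, hω, rfl⟩ := hP
  refine ⟨emb g l e ω, ?_, rfl⟩
  have h1 : Subgroup.map (emb g l e) (Omega g l) ≤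
      ⁅isomOf (extForm g l e δ), isomOf (extForm g l e δ)⁆ := by
    rw [Omega, Subgroup.map_commutator]
    refine Subgroup.commutator_mono ?_ ?_
    · rintro _ ⟨P, hP, rfl⟩
      exact emb_mem δ hP
    · rintro _ ⟨P, hP, rfl⟩
      exact emb_mem δ hP
  exact h1 ⟨ω, hω, rfl⟩

end embed

section index

/-- three points -/
def rho3 : Fin 3 ≃ (Unit ⊕ Unit) ⊕ Unit where
  toFun := ![.inl (.inl ()), .inl (.inr ()), .inr ()]
  invFun := Sum.elim (Sum.elim (fun _ => 0) (fun _ => 1)) (fun _ => 2)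
  left_inv i := by fin_cases i <;> rfl
  right_inv i := by rcases i with (i | i) | i <;> rfl

/-- the first index -/
def succE (n : ℕ) : Unit ⊕ Fin n ≃ Fin (n + 1) where
  toFun := Sum.elim (fun _ => 0) Fin.succ
  invFun := Fin.cases (.inl ()) .inr
  left_inv := by rintro (i | i) <;> rfl
  right_inv i := by
    refine Fin.cases ?_ ?_ i
    · rfl
    · intro j; rfl

/-- the index sets -/
def EI {β : Type} {g : ℕ} (n : ℕ) (e0 : Unit ⊕ β ≃ Fin g) :
    Fin 3 ⊕ ((β ⊕ β) ⊕ Fin n) ≃ (Fin g ⊕ Fin g) ⊕ Fin (n + 1) :=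
  (Equiv.sumCongr rho3 (Equiv.refl _)).trans
    ((Equiv.sumSumSumComm (Unit ⊕ Unit) Unit (β ⊕ β) (Fin n)).trans
      (Equiv.sumCongr ((Equiv.sumSumSumComm Unit Unit β β).trans (Equiv.sumCongr e0 e0))
        (succE n)))

variable {β : Type} {g : ℕ} (n : ℕ) (e0 : Unit ⊕ β ≃ Fin g)

lemma EI_0 : EI n e0 (.inl 0) = .inl (.inl (e0 (.inl ()))) := rfl
lemma EI_1 : EI n e0 (.inl 1) = .inl (.inr (e0 (.inl ()))) := rfl
lemma EI_2 : EI n e0 (.inl 2) = .inr 0 := rfl
lemma EI_l (b : β) : EI n e0 (.inr (.inl (.inl b))) = .inl (.inl (e0 (.inr b))) := rfl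
lemma EI_r (b : β) : EI n e0 (.inr (.inl (.inr b))) = .inl (.inr (e0 (.inr b))) := rfl
lemma EI_s (j : Fin n) : EI n e0 (.inr (.inr j)) = .inr j.succ := rfl

lemma form_eq [Fintype β] [DecidableEq β] (l : ℕ) [Fact l.Prime] (δ : (ZMod l)ˣ) :
    extForm g l (n + 1) δ = psi (EI n e0) (M3 (ZMod l))
      (Matrix.fromBlocks (Matrix.fromBlocks 0 1 1 0) 0 0
        (Matrix.diagonal fun _ => 2 * (δ : ZMod l))) := by
  apply psi_of
  ext i j
  rcases i with i | (i | i) | i <;> rcases j with j | (j | j) | j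
  · fin_cases i <;> fin_cases j <;>
      simp [EI_0, EI_1, EI_2, extForm, splitForm, M3]
  · fin_cases i <;>
      simp [EI_0, EI_1, EI_2, EI_l, EI_r, EI_s, extForm, splitForm, M3, Matrix.one_apply]
  · fin_cases i <;>
      simp [EI_0, EI_1, EI_2, EI_l, EI_r, EI_s, extForm, splitForm, M3, Matrix.one_apply]
  · fin_cases i <;>
      simp [EI_0, EI_1, EI_2, EI_l, EI_r, EI_s, extForm, splitForm, M3, Matrix.one_apply,
        Matrix.diagonal_apply, (Fin.succ_ne_zero _).symm, eq_comm]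
  · fin_cases j <;>
      simp [EI_0, EI_1, EI_2, EI_l, EI_r, EI_s, extForm, splitForm, M3, Matrix.one_apply]
  · simp [EI_l, EI_r, extForm, splitForm]
  · simp [EI_l, EI_r, extForm, splitForm, Matrix.one_apply]
  · simp [EI_l, EI_r, EI_s, extForm, splitForm]
  · fin_cases j <;>
      simp [EI_0, EI_1, EI_2, EI_l, EI_r, EI_s, extForm, splitForm, M3, Matrix.one_apply]
  · simp [EI_l, EI_r, extForm, splitForm, Matrix.one_apply]
  · simp [EI_l, EI_r, extForm, splitForm]
  · simp [EI_l, EI_r, EI_s, extForm, splitForm]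
  · fin_cases j <;>
      simp [EI_0, EI_1, EI_2, EI_l, EI_r, EI_s, extForm, splitForm, M3, Matrix.one_apply,
        Matrix.diagonal_apply]
  · simp [EI_l, EI_r, EI_s, extForm, splitForm]
  · simp [EI_l, EI_r, EI_s, extForm, splitForm]
  · simp [EI_s, extForm, Matrix.diagonal_apply]

lemma diag_eq [Fintype β] [DecidableEq β] {F : Type*} [Field F]
    (w : (Fin g ⊕ Fin g) ⊕ Fin (n + 1) → F) (hw : w (.inr 0) = 1) :
    Matrix.diagonal w = psi (EI n e0) (Hm (w (.inl (.inl (e0 (.inl ())))))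
      (w (.inl (.inr (e0 (.inl ())))))) (Matrix.diagonal fun i => w (EI n e0 (.inr i))) := by
  apply psi_of
  rw [Matrix.submatrix_diagonal_equiv]
  have h1 : Hm (w (.inl (.inl (e0 (.inl ()))))) (w (.inl (.inr (e0 (.inl ()))))) =
      Matrix.diagonal fun i : Fin 3 => w (EI n e0 (.inl i)) := by
    ext i j
    fin_cases i <;> fin_cases j <;>
      simp [Hm, EI_0, EI_1, EI_2, hw, Matrix.diagonal_apply]
  rw [h1, Matrix.fromBlocks_diagonal]
  congr 1
  ext i
  rcases i with i | i <;> rfl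

end index

theorem ereal2 (h : St_OMEG) : St_EREAL2 := by
  classical
  intro g l r e δ κ T t₀ hg hl hl5 hlr he hT ht₀ hne hsq hκ
  obtain ⟨n, rfl⟩ : ∃ n, e = n + 1 := by
    rcases he with rfl | rfl
    · exact ⟨0, rfl⟩
    · exact ⟨1, rfl⟩
  have : Fact l.Prime := ⟨hl⟩
  have hl2 : l ≠ 2 := by omega
  have h2F : (2 : ZMod l) ≠ 0 := by
    have h1 : ((2 : ℕ) : ZMod l) ≠ 0 := by
      rw [Ne, ZMod.natCast_eq_zero_iff]
      intro h1
      have := Nat.le_of_dvd (by norm_num) h1
      omega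
    exact_mod_cast h1
  have hr0 : (r : ZMod l) ≠ 0 := by
    rw [Ne, ZMod.natCast_eq_zero_iff]
    exact hlr
  -- the numbers
  have hs0 : t₀ + 2 * (r : ZMod l) ≠ 0 := by
    intro h0
    apply hne
    linear_combination (t₀ - 2 * (r : ZMod l)) * h0
  set d : ZMod l := (r : ZMod l) * (t₀ + 2 * (r : ZMod l)) with hd
  have hd0 : d ≠ 0 := mul_ne_zero hr0 hs0
  have hdd : d * d⁻¹ = 1 := mul_inv_cancel₀ hd0
  set x : ZMod l := (t₀ + 2 * (r : ZMod l) - 1) * d⁻¹ - 1 with hx
  have hx1 : d * (1 + x) + 1 = t₀ + 2 * (r : ZMod l) := by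
    rw [hx]
    linear_combination (t₀ + 2 * (r : ZMod l) - 1) * hdd
  have hx2 : (r : ZMod l) * (d * (1 + x) + 1) ^ 2 = d * (t₀ + 2 * (r : ZMod l)) := by
    rw [hx1, hd]
    ring
  -- the other roots
  set T' := T.erase t₀ with hT'
  have hcard : T'.card + 1 = g := by
    rw [hT', Finset.card_erase_of_mem ht₀, hT]
    omega
  have hex : ∀ t : T', ∃ a : ZMod l, a ≠ 0 ∧ a ^ 2 + (r : ZMod l) ^ 2 = t * a := by
    intro t
    obtain ⟨⟨w, hw⟩, -⟩ := hsq t t.2
    refine ⟨((t : ZMod l) + w) / 2, ?_, ?_⟩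
    · intro h0
      have h1 : ((t : ZMod l) + w) = 0 := by
        rcases div_eq_zero_iff.1 h0 with h1 | h1
        · exact h1
        · exact absurd h1 h2F
      have h3 : (2 : ZMod l) ^ 2 * (r : ZMod l) ^ 2 = 0 := by
        linear_combination (-1 : ZMod l) * hw + ((t : ZMod l) - w) * h1
      exact (mul_ne_zero (pow_ne_zero 2 h2F) (pow_ne_zero 2 hr0)) h3
    · field_simp
      linear_combination (-1 : ZMod l) * hw
  choose a ha0 ha using hex
  have e0 : Unit ⊕ T' ≃ Fin g := Fintype.equivOfCardEq (by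
    rw [Fintype.card_sum, Fintype.card_unit, Fintype.card_coe, Fintype.card_fin]
    omega)
  have hinv : ∀ t : T', a t / r * (r / a t) = 1 := by
    intro t
    have := ha0 t
    field_simp
  set ra : Fin g → ZMod l := fun i => Sum.elim (fun _ => d) (fun t => a t / r) (e0.symm i)
    with hra
  set ra' : Fin g → ZMod l := fun i => Sum.elim (fun _ => d⁻¹) (fun t => r / a t) (e0.symm i)
    with hra'
  have hrr : ∀ i, ra i * ra' i = 1 := by
    intro i
    rw [hra, hra']
    rcases he : e0.symm i with u | t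
    · simp only [he, Sum.elim_inl, hdd]
    · simp only [he, Sum.elim_inr, hinv]
  set w : (Fin g ⊕ Fin g) ⊕ Fin (n + 1) → ZMod l :=
    Sum.elim (Sum.elim ra ra') (fun j => if j.val = 0 then 1 else -1) with hw
  have hw0 : w (.inr 0) = 1 := by rw [hw]; simp
  have hwd : w (.inl (.inl (e0 (.inl ())))) = d := by
    rw [hw, hra]
    simp
  have hwd' : w (.inl (.inr (e0 (.inl ())))) = d⁻¹ := by
    rw [hw, hra']
    simp
  have hDpsi := diag_eq n e0 w hw0
  rw [hwd, hwd'] at hDpsi
  have hform := form_eq n e0 l δ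
  -- the diagonal part
  have hD : ∃ ω ∈ ⁅isomOf (extForm g l (n + 1) δ), isomOf (extForm g l (n + 1) δ)⁆,
      Matrix.diagonal w = extElt g l (n + 1) κ * ω.val := by
    set k : Fin g → ZMod l := fun i => if i.val = 0 then (κ : ZMod l) else 1 with hk
    set k' : Fin g → ZMod l := fun i => if i.val = 0 then ((κ⁻¹ : (ZMod l)ˣ) : ZMod l) else 1
      with hk'
    have hkk : ∀ i, k i * k' i = 1 := by
      intro i
      rw [hk, hk']
      by_cases hi : i.val = 0
      · simp only [if_pos hi, Units.mul_inv]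
      · simp only [if_neg hi, mul_one]
    have hone : Matrix.diagonal (fun i => k' i * ra i) *
        (Matrix.diagonal (fun i => k i * ra' i)).transpose = 1 := by
      rw [Matrix.diagonal_transpose, Matrix.diagonal_mul_diagonal, ← Matrix.diagonal_one]
      congr 1
      ext i
      linear_combination (k i * k' i) * hrr i + hkk i
    have hdetk : ∏ i, k' i = ((κ⁻¹ : (ZMod l)ˣ) : ZMod l) := by
      rw [Finset.prod_eq_single (⟨0, by omega⟩ : Fin g)]
      · rw [hk']
        simp only [if_true]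
      · intro i _ hi
        rw [hk']
        simp only
        rw [if_neg]
        intro h0
        exact hi (Fin.ext h0)
      · intro h0
        exact absurd (Finset.mem_univ _) h0
    have hdetra : ∏ i, ra i = d * ∏ t : T', a t / r := by
      rw [← Equiv.prod_comp e0, Fintype.prod_sum_type]
      simp [hra]
    have hdet : IsSquare (Matrix.diagonal (fun i => k' i * ra i)).det := by
      rw [Matrix.det_diagonal, Finset.prod_mul_distrib, hdetk, hdetra]
      obtain ⟨y, hy⟩ := hκ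
      rw [← Finset.mul_prod_erase T _ ht₀, ← hT',
        ← Finset.prod_coe_sort T' (fun t => (r : ZMod l) * (t + 2 * (r : ZMod l))), ← hd] at hy
      have hκ0 : (κ : ZMod l) ≠ 0 := κ.ne_zero
      have ht2 : ∀ t : T', (t : ZMod l) + 2 * (r : ZMod l) ≠ 0 := by
        intro t h0
        apply (hsq t t.2).2
        linear_combination ((t : ZMod l) - 2 * (r : ZMod l)) * h0
      have hy0 : y ≠ 0 := by
        rintro rfl
        rw [mul_zero] at hy
        exact (mul_ne_zero hκ0 (mul_ne_zero hd0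
          (Finset.prod_ne_zero_iff.2 fun t _ => mul_ne_zero hr0 (ht2 t)))) hy
      refine ⟨(d * ∏ t : T', (a t + r)) / y, ?_⟩
      rw [div_mul_div_comm, eq_div_iff (mul_ne_zero hy0 hy0), ← hy]
      have hpr : (∏ t : T', a t / (r : ZMod l)) *
          (∏ t : T', (r : ZMod l) * ((t : ZMod l) + 2 * (r : ZMod l))) =
          (∏ t : T', (a t + r)) * ∏ t : T', (a t + r) := by
        rw [← Finset.prod_mul_distrib, ← Finset.prod_mul_distrib]
        refine Finset.prod_congr rfl fun t _ => ?_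
        field_simp
        linear_combination (-1 : ZMod l) * ha t
      have hu : ((κ⁻¹ : (ZMod l)ˣ) : ZMod l) * (κ : ZMod l) = 1 := Units.inv_mul κ
      calc ((κ⁻¹ : (ZMod l)ˣ) : ZMod l) * (d * ∏ t : T', a t / (r : ZMod l)) *
            ((κ : ZMod l) * (d * ∏ t : T', (r : ZMod l) * ((t : ZMod l) + 2 * (r : ZMod l))))
          = (((κ⁻¹ : (ZMod l)ˣ) : ZMod l) * (κ : ZMod l)) * (d * d) *
            ((∏ t : T', a t / (r : ZMod l)) *
            ∏ t : T', (r : ZMod l) * ((t : ZMod l) + 2 * (r : ZMod l))) := by ring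
        _ = _ := by
            rw [hu, hpr]
            ring
    obtain ⟨ω, hω, hω'⟩ := emb_inC (e := n + 1) δ
      (inO_block h (by omega) hl hl5 _ _ hone hdet)
    refine ⟨ω, hω, ?_⟩
    rw [hω', extElt, diagElt, Matrix.fromBlocks_diagonal, Matrix.fromBlocks_diagonal,
      ← Matrix.diagonal_one, Matrix.fromBlocks_diagonal, Matrix.diagonal_mul_diagonal]
    congr 1
    ext i
    rcases i with (i | i) | i
    · change ra i = k i * (k' i * ra i)
      rw [← mul_assoc, hkk, one_mul]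
    · change ra' i = k' i * (k i * ra' i)
      rw [← mul_assoc, mul_comm (k' i), hkk, one_mul]
    · change (if i.val = 0 then (1 : ZMod l) else -1) = (if i.val = 0 then 1 else -1) * 1
      rw [mul_one]
  obtain ⟨ω₁, hω₁, hω₁'⟩ := hD
  obtain ⟨ω₂, hω₂, hω₂'⟩ := inC_mul (inC_V hl2 (EI n e0) _ _ hform 1)
    (inC_U hl2 (EI n e0) _ _ hform x)
  rw [psi_mul, mul_one] at hω₂'
  refine ⟨psi (EI n e0) (Hm d d⁻¹ * (V 1 * U x)) (Matrix.diagonal fun i => w (EI n e0 (.inr i))),
    ⟨ω₁ * ω₂, mul_mem hω₁ hω₂, ?_⟩, ?_⟩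
  · rw [Units.val_mul, ← mul_assoc (extElt g l (n + 1) κ), ← hω₁', hω₂', hDpsi, psi_mul,
      mul_one]
  · rw [psi_smul, psi_charpoly, charpoly3 _ d d⁻¹ x t₀ hdd hx2, ← Matrix.diagonal_smul,
      charpoly_diag, Fintype.prod_sum_type, Fintype.prod_sum_type, Fin.prod_univ_succ]
    have hwl : ∀ t : T', w (EI n e0 (.inr (.inl (.inl t)))) = a t / r := by
      intro t
      rw [EI_l, hw, hra]
      simp
    have hwr : ∀ t : T', w (EI n e0 (.inr (.inl (.inr t)))) = r / a t := by
      intro t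
      rw [EI_r, hw, hra']
      simp
    have hws : ∀ j : Fin n, w (EI n e0 (.inr (.inr j))) = -1 := by
      intro j
      rw [EI_s, hw]
      simp
    simp only [Pi.smul_apply, smul_eq_mul, hwl, hwr, hws]
    rw [← Finset.mul_prod_erase T _ ht₀, ← hT', ← Finset.prod_coe_sort T',
      ← Finset.prod_mul_distrib]
    have hq : ∀ t : T', (X - C ((r : ZMod l) * (a t / r))) * (X - C ((r : ZMod l) * (r / a t))) =
        X ^ 2 - C (t : ZMod l) * X + C ((r : ZMod l) ^ 2) := by
      intro t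
      have h1 : (r : ZMod l) * (a t / r) + (r : ZMod l) * (r / a t) = t := by
        have := ha0 t
        field_simp
        linear_combination ha t
      have h2 : (r : ZMod l) * (a t / r) * ((r : ZMod l) * (r / a t)) = (r : ZMod l) ^ 2 := by
        have := ha0 t
        field_simp
      have h1' : C ((r : ZMod l) * (a t / r)) + C ((r : ZMod l) * (r / a t)) =
          C (t : ZMod l) := by
        rw [← C_add, h1]
      have h2' : C ((r : ZMod l) * (a t / r)) * C ((r : ZMod l) * (r / a t)) =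
          C ((r : ZMod l) ^ 2) := by
        rw [← C_mul, h2]
      rw [← h1', ← h2']
      ring
    simp only [hq]
    simp only [Fin.val_zero, if_true, Fin.val_succ, Nat.add_eq_zero_iff, one_ne_zero, and_false,
      if_false, mul_neg, mul_one]
    ring

end Pool.Agent.W382.MF.EReal2
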